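import Pool.Agent.Helper36.RN.Goals

/-!
Packet PRSB of PROJECT RFn, existence part (MP_c98eff_gt, for helper36): commutators of the rotation fields,
moving a derivative.
-/

set_option autoImplicit false

namespace Pool.Agent.Helper3.RN

open Pool.Agent.Helper36.RN Pool.Agent.Helper47.RFn

variable {n : ℕ}

theorem ip_add_le (u v : XS n) : ip (u + v) (u + v) ≤ 2 * (ip u u + ip v v) := by
  have h := sn_add_le 0 u v
  rwa [sn_zero, sn_zero, sn_zero] at h

/-- combinations with constant coefficients of `Wd w`, `|w| ≤ k` -/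
noncomputable def Sk (n k : ℕ) : Submodule ℝ (XS n →ₗ[ℝ] XS n) :=
  Submodule.span ℝ {T | ∃ w : List (KK n), w.length ≤ k ∧ T = Wd w}

theorem Sk_bound {k : ℕ} {T : XS n →ₗ[ℝ] XS n} (hT : T ∈ Sk n k) :
    ∃ C, 0 ≤ C ∧ ∀ u, ip (T u) (T u) ≤ C * sn k u := by
  unfold Sk at hT
  induction hT using Submodule.span_induction with
  | mem T h =>
    obtain ⟨w, hw, rfl⟩ := h
    exact ⟨1, zero_le_one, fun u => by rw [one_mul]; exact ip_Wd_le hw u⟩
  | zero =>
    refine ⟨0, le_rfl, fun u => ?_⟩
    simp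
  | add T T' _ _ h h' =>
    obtain ⟨C, hC, hb⟩ := h
    obtain ⟨C', hC', hb'⟩ := h'
    refine ⟨2 * (C + C'), by positivity, fun u => ?_⟩
    have h1 := ip_add_le (T u) (T' u)
    have h2 := hb u
    have h3 := hb' u
    rw [LinearMap.add_apply]
    linarith
  | smul c T _ h =>
    obtain ⟨C, hC, hb⟩ := h
    refine ⟨c ^ 2 * C, by positivity, fun u => ?_⟩
    have h2 := hb u
    rw [LinearMap.smul_apply, map_smul, map_smul, LinearMap.smul_apply, smul_eq_mul, smul_eq_mul]
    have : c * (c * ip (T u) (T u)) = c ^ 2 * ip (T u) (T u) := by ring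
    rw [this, mul_assoc]
    exact mul_le_mul_of_nonneg_left h2 (sq_nonneg c)

theorem Sk_comp (j : KK n) {k : ℕ} {T : XS n →ₗ[ℝ] XS n} (hT : T ∈ Sk n k) :
    (Ld j).toLinearMap ∘ₗ T ∈ Sk n (k + 1) := by
  unfold Sk at hT
  induction hT using Submodule.span_induction with
  | mem T h =>
    obtain ⟨w, hw, rfl⟩ := h
    exact Submodule.subset_span ⟨j :: w, by simpa using hw, rfl⟩
  | zero =>
    rw [LinearMap.comp_zero]
    exact Submodule.zero_mem _
  | add T T' _ _ h h' =>
    rw [LinearMap.comp_add]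
    exact Submodule.add_mem _ h h'
  | smul c T _ h =>
    rw [LinearMap.comp_smul]
    exact Submodule.smul_mem _ c h

/-- the commutator of `Wd w` and `Ld i` as a linear map -/
noncomputable def K (w : List (KK n)) (i : KK n) : XS n →ₗ[ℝ] XS n :=
  Wd w ∘ₗ (Ld i).toLinearMap - (Ld i).toLinearMap ∘ₗ Wd w

theorem K_apply (w : List (KK n)) (i : KK n) (u : XS n) :
    K w i u = Wd w (Ld i u) - Ld i (Wd w u) := rfl

theorem K_mem (w : List (KK n)) (i : KK n) : K w i ∈ Sk n w.length := by
  induction w with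
  | nil =>
    have h : K ([] : List (KK n)) i = 0 := by
      refine LinearMap.ext fun u => ?_
      rw [K_apply]
      simp
    rw [h]
    exact Submodule.zero_mem _
  | cons j w ih =>
    have h : K (j :: w) i = (∑ k, (cs j i k) • Wd (k :: w))
        + (Ld j).toLinearMap ∘ₗ K w i := by
      refine LinearMap.ext fun u => ?_
      rw [K_apply, LinearMap.add_apply, LinearMap.sum_apply]
      have h1 : ((Ld j).toLinearMap ∘ₗ K w i) u = Ld j (Wd w (Ld i u)) - Ld j (Ld i (Wd w u)) := by
        rw [LinearMap.comp_apply, K_apply]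
        exact map_sub (Ld j) _ _
      have h2 := comm j i (Wd w u)
      have h3 : ∑ k, ((cs j i k) • Wd (k :: w)) u = ∑ k, cs j i k • Ld k (Wd w u) := by
        refine Finset.sum_congr rfl fun k _ => ?_
        rw [LinearMap.smul_apply, Wd_cons]
      rw [h1, h3, ← h2, Wd_cons, Wd_cons]
      abel
    rw [h, List.length_cons]
    refine Submodule.add_mem _ (Submodule.sum_mem _ fun k _ => Submodule.smul_mem _ _ ?_)
      (Sk_comp j ih)
    exact Submodule.subset_span ⟨k :: w, by simp, rfl⟩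

/-- a uniform constant over finitely many words -/
theorem unif (k : ℕ) (P : List (KK n) → KK n → ℝ → Prop)
    (hmono : ∀ w i c c', c ≤ c' → P w i c → P w i c')
    (h : ∀ w i, w.length ≤ k → ∃ C, P w i C) : ∃ C, ∀ w i, w.length ≤ k → P w i C := by
  have h' : ∀ p : List (KK n) × KK n, ∃ C, p.1.length ≤ k → P p.1 p.2 C := by
    intro p
    by_cases hp : p.1.length ≤ k
    · obtain ⟨C, hC⟩ := h p.1 p.2 hp
      exact ⟨C, fun _ => hC⟩
    · exact ⟨0, fun h => absurd h hp⟩
  choose C hC using h'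
  refine ⟨∑ p ∈ Wle k ×ˢ (Finset.univ : Finset (KK n)), |C p|, fun w i hw => ?_⟩
  refine hmono w i (C (w, i)) _ ?_ (hC (w, i) hw)
  refine (le_abs_self _).trans ?_
  exact Finset.single_le_sum (f := fun p : List (KK n) × KK n => |C p|)
    (fun p _ => abs_nonneg _) (Finset.mem_product.2 ⟨mem_Wle.2 hw, Finset.mem_univ i⟩)

theorem term_bound {a b : XS n} {A B : ℝ} (ha : ip a a ≤ A) (hb : ip b b ≤ B) :
    (ip a b) ^ 2 ≤ A * B :=
  (cs_ip a b).trans (mul_le_mul ha hb (ip_nonneg b) ((ip_nonneg a).trans ha))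

theorem sum_bound (m : ℕ) (f : List (KK n) → ℝ) (B : ℝ)
    (h : ∀ w : List (KK n), w.length ≤ m → f w ^ 2 ≤ B) :
    (∑ w ∈ Wle m, f w) ^ 2 ≤ ((Wle (n := n) m).card : ℝ) ^ 2 * B := by
  have h1 := sq_sum_le_card_mul_sum_sq (s := Wle (n := n) m) (f := f)
  have h2 : ∑ w ∈ Wle m, f w ^ 2 ≤ (Wle (n := n) m).card * B := by
    rw [← nsmul_eq_mul]
    exact Finset.sum_le_card_nsmul _ _ _ fun w hw => h w (mem_Wle.1 hw)
  calc (∑ w ∈ Wle m, f w) ^ 2 ≤ (Wle (n := n) m).card * ∑ w ∈ Wle m, f w ^ 2 := h1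
    _ ≤ (Wle (n := n) m).card * ((Wle (n := n) m).card * B) :=
        mul_le_mul_of_nonneg_left h2 (Nat.cast_nonneg _)
    _ = ((Wle (n := n) m).card : ℝ) ^ 2 * B := by ring

theorem prsb : Pool.Agent.Helper36.RN.G_PRSB := by
  intro n
  refine ⟨fun k => ?_, fun m => ?_, fun m hm => ?_⟩
  · obtain ⟨C, hC⟩ := unif (n := n) k
      (fun w i c => ∀ u : XS n, ip (Wd w (Ld i u) - Ld i (Wd w u)) (Wd w (Ld i u) - Ld i (Wd w u))
        ≤ c * sn k u)
      (fun w i c c' hcc h u => (h u).trans (mul_le_mul_of_nonneg_right hcc (sn_nonneg k u)))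
      (fun w i hw => by
        obtain ⟨C, hC, hb⟩ := Sk_bound (K_mem w i)
        refine ⟨C, fun u => ?_⟩
        have h1 := hb u
        rw [K_apply] at h1
        exact h1.trans (mul_le_mul_of_nonneg_left (sn_mono hw u) hC))
    exact ⟨C, fun w hw i u => hC w i hw u⟩
  · refine ⟨((Wle (n := n) m).card : ℝ) ^ 2, fun i u v => ?_⟩
    rw [bf_apply]
    refine sum_bound m _ _ fun w hw => ?_
    cases w with
    | nil =>
      have h1 : ip (Wd [] u) (Wd [] (Ld i v)) = - ip (Wd [i] u) (Wd [] v) := by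
        have := ibp i u v
        simp only [Wd_nil, Wd_cons]
        linarith
      rw [h1, neg_sq]
      exact term_bound (ip_Wd_le (by simp) u) (ip_Wd_le (by simp) v)
    | cons j w =>
      have h1 : ip (Wd (j :: w) u) (Wd (j :: w) (Ld i v))
          = - ip (Wd (j :: j :: w) u) (Wd (w ++ [i]) v) := by
        have := ibp j (Ld j (Wd w u)) (Wd w (Ld i v))
        rw [Wd_append]
        simp only [Wd_nil, Wd_cons]
        linarith
      rw [h1, neg_sq]
      simp only [List.length_cons] at hw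
      exact term_bound (ip_Wd_le (by simp only [List.length_cons]; omega) u)
        (ip_Wd_le (by simp only [List.length_append, List.length_cons, List.length_nil]; omega) v)
  · refine ⟨((Wle (n := n) m).card : ℝ) ^ 2, fun u v => ?_⟩
    rw [bf_apply]
    refine sum_bound m _ _ fun w hw => ?_
    cases w with
    | nil =>
      exact term_bound (ip_Wd_le (by simp) u) (ip_Wd_le (by simp) v)
    | cons j w =>
      have h1 : ip (Wd (j :: w) u) (Wd (j :: w) v)
          = - ip (Wd (j :: j :: w) u) (Wd w v) := by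
        have := ibp j (Ld j (Wd w u)) (Wd w v)
        simp only [Wd_cons]
        linarith
      rw [h1, neg_sq]
      simp only [List.length_cons] at hw
      exact term_bound (ip_Wd_le (by simp only [List.length_cons]; omega) u)
        (ip_Wd_le (by omega) v)

end Pool.Agent.Helper3.RN
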