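import Pool.Agent.Helper36.RN.GoalsH

/-!
Packet ZR of PROJECT RFn, existence part 2 (MP_c98eff_gt, for helper36): the radial part of the connection stays zero.
The algebra is done over an abstract algebra with derivations (this is much faster than in `XS n`).
-/

set_option autoImplicit false
set_option linter.unusedSectionVars false

namespace Pool.Agent.Helper3.RN.ZR

open Set Filter Topology Pool.Agent.Helper36.RN Pool.Agent.Helper47.RFn

variable {n : ℕ}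

section abs

variable {𝒜 : Type} [CommRing 𝒜] [Algebra ℝ 𝒜]

/-- closure rules for a class of curves -/
structure CCR (P : (ℝ → 𝒜) → Prop) (e : Ix n → Derivation ℝ 𝒜 𝒜) : Prop where
  const : ∀ f : 𝒜, P (fun _ => f)
  add : ∀ y z : ℝ → 𝒜, P y → P z → P (fun t => y t + z t)
  sub : ∀ y z : ℝ → 𝒜, P y → P z → P (fun t => y t - z t)
  mul : ∀ y z : ℝ → 𝒜, P y → P z → P (fun t => y t * z t)
  neg : ∀ y : ℝ → 𝒜, P y → P (fun t => - y t)
  ee : ∀ (i : Fin (n + 1)) (y : ℝ → 𝒜), P y → P (fun t => e i (y t))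
  sum : ∀ (ι : Type) (s : Finset ι) (y : ι → ℝ → 𝒜), (∀ i ∈ s, P (y i)) →
    P (fun t => ∑ i ∈ s, y i t)

variable {P : (ℝ → 𝒜) → Prop} {e : Ix n → Derivation ℝ 𝒜 𝒜} {n0 : Ix n → 𝒜}

theorem CCR.sum' (R : CCR P e) (ι : Type) [Fintype ι] (y : ι → ℝ → 𝒜)
    (h : ∀ i, P (y i)) : P (fun t => ∑ i, y i t) :=
  R.sum ι Finset.univ y fun i _ => h i

theorem CCR.ite (R : CCR P e) (Q : Prop) [Decidable Q] (y : ℝ → 𝒜)
    (h : P y) : P (fun t => if Q then y t else 0) := by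
  by_cases hP : Q
  · simpa only [if_pos hP] using h
  · simpa only [if_neg hP] using R.const 0

section curves

variable (R : CCR P e) {A : ℝ → Ix n → Ix n → 𝒜} {w : ℝ → Ix n → Ix n → Ix n → 𝒜}
  (hA : ∀ a i, P (fun t => A t a i)) (hw : ∀ i c d, P (fun t => w t i c d))

include R hA hw

theorem cc_Ga (a c d : Ix n) : P (fun t => TC.Ga (A t) (w t) a c d) :=
  R.sum' (Ix n) _ fun i => R.mul _ _ (hA a i) (hw i c d)

omit hA in
theorem cc_F (i j c d : Ix n) : P (fun t => TC.F e n0 (w t) i j c d) :=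
  R.sub _ _ (R.add _ _ (R.sub _ _ (R.ee i _ (hw j c d)) (R.ee j _ (hw i c d)))
    (R.sum' (Ix n) _ fun f => R.sub _ _ (R.mul _ _ (hw j c f) (hw i f d))
      (R.mul _ _ (hw i c f) (hw j f d))))
    (R.sub _ _ (R.mul _ _ (R.const (n0 i)) (hw j c d)) (R.mul _ _ (R.const (n0 j)) (hw i c d)))

theorem cc_K (a b c d : Ix n) : P (fun t => TC.K e n0 (A t) (w t) a b c d) :=
  R.sum' (Ix n) _ fun i => R.sum' (Ix n) _ fun j =>
    R.mul _ _ (R.mul _ _ (hA a i) (hA b j)) (cc_F R hw i j c d)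

theorem cc_ze (c d : Ix n) : P (fun t => TC.ze e (A t) (w t) c d) :=
  R.sum' (Ix n) _ fun k => R.sum' (Ix n) _ fun l =>
    R.mul _ _ (R.sum' (Ix n) _ fun a => R.mul _ _ (hA a k) (hA a l)) (R.ee k _ (hw l c d))

omit hA in
theorem cc_wr (c d : Ix n) : P (fun t => TC.wr n0 (w t) c d) :=
  R.sum' (Ix n) _ fun i => R.mul _ _ (R.const (n0 i)) (hw i c d)

theorem cc_cd2 (p c d : Ix n) :
    P (fun t => TC.cd2 e (A t) (w t) p (TC.wr n0 (w t)) c d) :=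
  R.sub _ _ (R.sum' (Ix n) _ fun i => R.mul _ _ (hA p i) (R.ee i _ (cc_wr R hw c d)))
    (R.sum' (Ix n) _ fun f => R.add _ _ (R.mul _ _ (cc_Ga R hA hw p c f) (cc_wr R hw f d))
      (R.mul _ _ (cc_Ga R hA hw p d f) (cc_wr R hw c f)))

end curves

/-- incidence coefficients -/
def kk (j : Ix n × Ix n × Ix n) (e : Fin (n + 1)) (i : Ix n × Ix n) : ℝ :=
  if j.1 = e then (if j.2.1 = i.1 then (if j.2.2 = i.2 then 1 else 0) else 0) else 0

theorem sum3 {M : Type} [AddCommMonoid M] (f : Ix n × Ix n × Ix n → M) :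
    ∑ j, f j = ∑ q, ∑ c, ∑ d, f (q, c, d) := by
  rw [Fintype.sum_prod_type]
  exact Finset.sum_congr rfl fun q _ => Fintype.sum_prod_type _

theorem sum2 {M : Type} [AddCommMonoid M] (f : Ix n × Ix n → M) :
    ∑ j, f j = ∑ c, ∑ d, f (c, d) := Fintype.sum_prod_type _

theorem kk_sum1 (G : Fin (n + 1) → Ix n × Ix n × Ix n → 𝒜) (c d : Ix n) :
    ∑ j, ∑ a, kk j a (c, d) • G a j = ∑ p, G p (p, c, d) := by
  rw [sum3]
  refine Finset.sum_congr rfl fun q _ => ?_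
  simp [kk, ite_smul]

theorem kk_sum2 (G : Fin (n + 1) → Ix n × Ix n → 𝒜) (p c d : Ix n) :
    ∑ i, ∑ a, kk (p, c, d) a i • G a i = G p (c, d) := by
  rw [sum2]
  simp [kk, ite_smul]

theorem L1 (G : Ix n → Ix n → 𝒜) (X : Ix n × Ix n × Ix n → 𝒜) (c d : Ix n) :
    ∑ j : Ix n × Ix n × Ix n, (if j.2.1 = c then (if j.2.2 = d then ∑ p, G p j.1 else 0) else 0) * X j =
      ∑ p, ∑ f, G p f * X (f, c, d) := by
  rw [sum3, Finset.sum_comm]
  have h : ∀ q, ∑ c', ∑ d', (if c' = c then (if d' = d then ∑ p, G p q else 0) else 0) * X (q, c', d')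
      = ∑ p, G p q * X (q, c, d) := by
    intro q
    simp [ite_mul, Finset.sum_mul]
  rw [Finset.sum_comm]
  simp only [h]
  rw [Finset.sum_comm]

theorem L2 (G : Ix n → Ix n → 𝒜) (X : Ix n × Ix n × Ix n → 𝒜) (d : Ix n) :
    ∑ j : Ix n × Ix n × Ix n, (if j.2.2 = d then G j.1 j.2.1 else 0) * X j =
      ∑ p, ∑ f, G p f * X (p, f, d) := by
  rw [sum3]
  simp [ite_mul]

theorem L3 (G : Ix n → Ix n → 𝒜) (X : Ix n × Ix n × Ix n → 𝒜) (c : Ix n) :
    ∑ j : Ix n × Ix n × Ix n, (if j.2.1 = c then G j.1 j.2.2 else 0) * X j =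
      ∑ p, ∑ f, G p f * X (p, c, f) := by
  rw [sum3]
  refine Finset.sum_congr rfl fun q _ => ?_
  rw [Finset.sum_comm]
  simp [ite_mul]

theorem L5 (G : Ix n → 𝒜) (X : Ix n × Ix n → 𝒜) (c : Ix n) :
    ∑ j : Ix n × Ix n, (if j.1 = c then G j.2 else 0) * X j = ∑ f, G f * X (c, f) := by
  rw [sum2, Finset.sum_comm]
  simp [ite_mul]

theorem L6 (G : Ix n → 𝒜) (X : Ix n × Ix n → 𝒜) (d : Ix n) :
    ∑ j : Ix n × Ix n, (if j.2 = d then G j.1 else 0) * X j = ∑ f, G f * X (f, d) := by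
  rw [sum2]
  simp [ite_mul]

/-- coefficients of `X` in the first equation -/
def c1 (A : Ix n → Ix n → 𝒜) (w : Ix n → Ix n → Ix n → 𝒜) (i : Ix n × Ix n)
    (j : Ix n × Ix n × Ix n) : 𝒜 :=
  -(if j.2.1 = i.1 then (if j.2.2 = i.2 then ∑ p, TC.Ga A w p p j.1 else 0) else 0)
    - (if j.2.2 = i.2 then TC.Ga A w j.1 i.1 j.2.1 else 0)
    - (if j.2.1 = i.1 then TC.Ga A w j.1 i.2 j.2.2 else 0)

variable (e n0) in
/-- coefficients of `N` in the first equation -/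
def c2 (A : Ix n → Ix n → 𝒜) (w : Ix n → Ix n → Ix n → 𝒜) (i j : Ix n × Ix n) : 𝒜 :=
  -TC.K e n0 A w j.1 j.2 i.1 i.2 - (if j.1 = i.1 then TC.ze e A w j.2 i.2 else 0)
    - (if j.1 = i.2 then TC.ze e A w i.1 j.2 else 0)

/-- coefficients of `N` in the second equation -/
def c3 (A : Ix n → Ix n → 𝒜) (w : Ix n → Ix n → Ix n → 𝒜)
    (j : Ix n × Ix n × Ix n) (i : Ix n × Ix n) : 𝒜 :=
  -(if i.2 = j.2.2 then TC.Ga A w j.1 j.2.1 i.1 else 0)
    - (if i.1 = j.2.1 then TC.Ga A w j.1 j.2.2 i.2 else 0)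

section curves2

variable (R : CCR P e) {A : ℝ → Ix n → Ix n → 𝒜} {w : ℝ → Ix n → Ix n → Ix n → 𝒜}
  (hA : ∀ a i, P (fun t => A t a i)) (hw : ∀ i c d, P (fun t => w t i c d))

include R hA hw

theorem cc_c1 (i : Ix n × Ix n) (j : Ix n × Ix n × Ix n) : P (fun t => c1 (A t) (w t) i j) :=
  R.sub _ _ (R.sub _ _ (R.neg _ (R.ite _ _ (R.ite _ _ (R.sum' (Ix n) _ fun _ =>
      cc_Ga R hA hw _ _ _)))) (R.ite _ _ (cc_Ga R hA hw _ _ _))) (R.ite _ _ (cc_Ga R hA hw _ _ _))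

theorem cc_c2 (i j : Ix n × Ix n) : P (fun t => c2 e n0 (A t) (w t) i j) :=
  R.sub _ _ (R.sub _ _ (R.neg _ (cc_K R hA hw _ _ _ _))
    (R.ite _ _ (cc_ze R hA hw _ _))) (R.ite _ _ (cc_ze R hA hw _ _))

theorem cc_c3 (j : Ix n × Ix n × Ix n) (i : Ix n × Ix n) : P (fun t => c3 (A t) (w t) j i) :=
  R.sub _ _ (R.neg _ (R.ite _ _ (cc_Ga R hA hw _ _ _))) (R.ite _ _ (cc_Ga R hA hw _ _ _))

end curves2

variable (e n0) in
/-- the tensor `∇ wr` -/
def XX (A : Ix n → Ix n → 𝒜) (w : Ix n → Ix n → Ix n → 𝒜) (j : Ix n × Ix n × Ix n) : 𝒜 :=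
  TC.cd2 e A w j.1 (TC.wr n0 w) j.2.1 j.2.2

variable (n0) in
/-- the radial part -/
def NN (w : Ix n → Ix n → Ix n → 𝒜) (i : Ix n × Ix n) : 𝒜 := TC.wr n0 w i.1 i.2

theorem eq2 (A : Ix n → Ix n → 𝒜) (w : Ix n → Ix n → Ix n → 𝒜) (j : Ix n × Ix n × Ix n) :
    XX e n0 A w j = ∑ i : Ix n × Ix n, ∑ a, kk j a i • ∑ l, A a l * e l (NN n0 w i)
        + ∑ i : Ix n × Ix n, c3 A w j i * NN n0 w i := by
  obtain ⟨p, c, d⟩ := j
  rw [kk_sum2 (fun a i => ∑ l, A a l * e l (NN n0 w i)) p c d]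
  have h1 : ∑ i : Ix n × Ix n, c3 A w (p, c, d) i * NN n0 w i =
      - ∑ i : Ix n × Ix n, (if i.2 = d then TC.Ga A w p c i.1 else 0) * NN n0 w i
      - ∑ i : Ix n × Ix n, (if i.1 = c then TC.Ga A w p d i.2 else 0) * NN n0 w i := by
    rw [← Finset.sum_neg_distrib, ← Finset.sum_sub_distrib]
    refine Finset.sum_congr rfl fun i _ => ?_
    rw [c3]
    ring
  rw [h1, L6 (fun f => TC.Ga A w p c f) (NN n0 w) d, L5 (fun f => TC.Ga A w p d f) (NN n0 w) c]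
  simp only [XX, NN, TC.cd2, FR.Fd, Finset.sum_add_distrib]
  ring

theorem eq1 (A θ : Ix n → Ix n → 𝒜) (w : Ix n → Ix n → Ix n → 𝒜) (hR : R_RAD) (hS : R_SYS)
    (hb : BH e n0) (hc : CH A θ w) (ht : ∀ a b c, TC.ta e n0 A θ w a b c = 0) (i : Ix n × Ix n) :
    ∑ k, n0 k * TC.sw e n0 A θ w k i.1 i.2 =
      (1 : ℝ) • ∑ j : Ix n × Ix n × Ix n, ∑ a, kk j a i • ∑ l, A a l * e l (XX e n0 A w j)
        + ∑ j : Ix n × Ix n × Ix n, c1 A w i j * XX e n0 A w j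
        + ∑ j : Ix n × Ix n, c2 e n0 A w i j * NN n0 w j := by
  obtain ⟨c, d⟩ := i
  obtain ⟨-, r2, r3, -⟩ := hR n 𝒜 e n0 A θ w hb hc
  have h0 : ∑ k, n0 k * TC.sw e n0 A θ w k c d = ∑ k, n0 k * TC.rw e n0 A θ w k c d :=
    Finset.sum_congr rfl fun k _ => by rw [hS n 𝒜 e n0 A θ w hb hc k c d]
  have hv : ∀ p a, TC.cd1 e A w p (TC.vv n0 θ) a = TC.wr n0 w p a := by
    intro p a
    rw [r2 p a, Finset.sum_eq_zero fun b _ => by rw [ht, mul_zero], add_zero]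
  rw [one_smul, kk_sum1 (fun a j => ∑ l, A a l * e l (XX e n0 A w j)) c d]
  have h1 : ∑ j : Ix n × Ix n × Ix n, c1 A w (c, d) j * XX e n0 A w j =
      - ∑ j : Ix n × Ix n × Ix n, (if j.2.1 = c then (if j.2.2 = d then ∑ p, TC.Ga A w p p j.1 else 0)
          else 0) * XX e n0 A w j
      - ∑ j : Ix n × Ix n × Ix n, (if j.2.2 = d then TC.Ga A w j.1 c j.2.1 else 0) * XX e n0 A w j
      - ∑ j : Ix n × Ix n × Ix n, (if j.2.1 = c then TC.Ga A w j.1 d j.2.2 else 0) *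
          XX e n0 A w j := by
    rw [← Finset.sum_neg_distrib, ← Finset.sum_sub_distrib, ← Finset.sum_sub_distrib]
    refine Finset.sum_congr rfl fun j _ => ?_
    rw [c1]
    ring
  have h2 : ∑ j : Ix n × Ix n, c2 e n0 A w (c, d) j * NN n0 w j =
      - ∑ j : Ix n × Ix n, TC.K e n0 A w j.1 j.2 c d * NN n0 w j
      - ∑ j : Ix n × Ix n, (if j.1 = c then TC.ze e A w j.2 d else 0) * NN n0 w j
      - ∑ j : Ix n × Ix n, (if j.1 = d then TC.ze e A w c j.2 else 0) * NN n0 w j := by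
    rw [← Finset.sum_neg_distrib, ← Finset.sum_sub_distrib, ← Finset.sum_sub_distrib]
    refine Finset.sum_congr rfl fun j _ => ?_
    rw [c2]
    ring
  rw [h0, r3 c d, h1, h2, L1 (fun p f => TC.Ga A w p p f) (XX e n0 A w) c d,
    L2 (fun p f => TC.Ga A w p c f) (XX e n0 A w) d,
    L3 (fun p f => TC.Ga A w p d f) (XX e n0 A w) c,
    sum2 (fun j => TC.K e n0 A w j.1 j.2 c d * NN n0 w j),
    L5 (fun f => TC.ze e A w f d) (NN n0 w) c, L5 (fun f => TC.ze e A w c f) (NN n0 w) d]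
  simp only [hv, TC.cd3, FR.Fd, XX, NN, Finset.sum_add_distrib, Finset.sum_sub_distrib]
  have e1 : ∀ p a, TC.wr n0 w p a * TC.K e n0 A w p a c d = TC.K e n0 A w p a c d * TC.wr n0 w p a :=
    fun p a => mul_comm _ _
  have e2 : ∀ a, TC.wr n0 w c a * TC.ze e A w a d = TC.ze e A w a d * TC.wr n0 w c a :=
    fun a => mul_comm _ _
  have e3 : ∀ a, TC.wr n0 w d a * TC.ze e A w c a = TC.ze e A w c a * TC.wr n0 w d a :=
    fun a => mul_comm _ _
  simp only [e1, e2, e3]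
  ring

end abs

theorem zr : Pool.Agent.Helper36.RN.G_ZR := by
  intro _ hR hS hC hE n τ A θ O w hF hI ht h0
  obtain ⟨d1, -, -, d4, -, -, -, -, d9, d10, -, d12, k1, k2, k3, k4, k5, -, -, k8, k9, -⟩ := hC n τ
  have R : CCR (CC τ) (Ee (n := n)) := ⟨k1, k2, k3, k4, k5, k8, k9⟩
  have hA : ∀ a i, CC τ (fun t => A t a i) := fun a i => (d12 _ _ (hF.dA a i)).1
  have hw : ∀ i c d, CC τ (fun t => w t i c d) := fun i c d => (d12 _ _ (hF.dw i c d)).1
  have hN : ∀ i : Ix n × Ix n, CD τ (fun t => NN nu (w t) i)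
      (fun t => ∑ k, nu k * TC.sw Ee nu (A t) (θ t) (w t) k i.1 i.2) := by
    intro i
    refine d10 _ _ _ (d9 (Ix n) Finset.univ (fun k t => nu k * w t k i.1 i.2) _ fun k _ =>
      d4 _ _ _ _ (d1 (nu k)) (hF.dw k i.1 i.2)) fun t _ => ?_
    exact Finset.sum_congr rfl fun k _ => by rw [zero_mul, zero_add]
  have h := hE n (Ix n × Ix n) (Ix n × Ix n × Ix n) τ 1 kk
    (fun i t => NN nu (w t) i) _
    (fun j t => XX Ee nu (A t) (w t) j)
    (fun a l t => A t a l) (fun i j t => c1 (A t) (w t) i j) (fun i j t => c2 Ee nu (A t) (w t) i j)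
    (fun j i t => c3 (A t) (w t) j i) one_pos hN
    (fun j => cc_cd2 R hA hw _ _ _) hA
    (fun i j => cc_c1 R hA hw i j) (fun i j => cc_c2 R hA hw i j) (fun j i => cc_c3 R hA hw j i)
    (fun t htt i => eq1 (A t) (θ t) (w t) hR hS (bh_XS n) (hI.ch t htt) (ht t htt) i)
    (fun t _ j => eq2 (A t) (w t) j)
    (fun i => h0 i.1 i.2)
  exact fun t htt c d => h t htt (c, d)

end Pool.Agent.Helper3.RN.ZR
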